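import Pool.Agent.Q9.BE.Zeta
import Pool.Agent.Q30.DH.Cl

/-!
# Zero density and the heights without decay
-/

set_option autoImplicit false

open Complex

namespace Pool.Agent.Q9.BE

open MeasureTheory Filter Topology
open Pool.Agent.Q30.DH
open Pool.Agent.Q9.EL (Es)

/-- few heights without decay -/
def BD (h : ℝ) (A : ℝ → ℝ) : Prop := ∀ ε : ℝ, 0 < ε → ∃ C : ℝ, 0 < C ∧ ∃ T0 : ℝ, ∀ T : ℝ, T0 ≤ T →
  ∀ σ : ℝ, 1 / 2 ≤ σ → σ ≤ 1 → ∀ R : ℝ, 1 < R → h * (R - 1 / R) = 2 * (1 - σ) →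
    volume {τ : ℝ | 2 ≤ τ ∧ τ ≤ T ∧ ¬ DecZ τ h R} ≤ ENNReal.ofReal (C * T ^ (A σ + ε))

lemma exists_R {h c : ℝ} (hh : 0 < h) (hc : 0 < c) : ∃ R : ℝ, 1 < R ∧ h * (R - 1 / R) = c := by
  set q : ℝ := c / h with hq
  have hq0 : 0 < q := by positivity
  set w : ℝ := Real.sqrt (q ^ 2 + 4) with hw
  have hw2 : w ^ 2 = q ^ 2 + 4 := Real.sq_sqrt (by positivity)
  have hw0 : 0 ≤ w := Real.sqrt_nonneg _
  have hwq : 2 < w := by nlinarith
  refine ⟨(q + w) / 2, by linarith, ?_⟩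
  have h0 : (q + w) / 2 ≠ 0 := by linarith
  have e : (q + w) / 2 - 1 / ((q + w) / 2) = q := by
    field_simp
    nlinarith
  rw [e, hq]
  field_simp

lemma ord_one {s : ℂ} (hs : riemannZeta s = 0) (h1 : s ≠ 1) :
    1 ≤ analyticOrderNatAt riemannZeta s := by
  rw [← Pool.Agent.Y757.LL.order_eq h1]
  have ha : AnalyticAt ℂ riemannZeta₁ s := differentiable_riemannZeta₁.analyticAt s
  have hz : riemannZeta₁ s = 0 := by
    rw [Pool.Agent.H437R2.z1_of_ne h1, hs, mul_zero]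
  have h6 : analyticOrderAt riemannZeta₁ s ≠ ⊤ := by
    intro htop
    rw [analyticOrderAt_eq_top] at htop
    have h7 : riemannZeta₁ 2 ≠ 0 := by
      rw [Pool.Agent.H437R2.z1_of_ne (by norm_num)]
      exact mul_ne_zero (by norm_num) (riemannZeta_ne_zero_of_one_le_re (by simp))
    have := AnalyticOnNhd.eq_of_eventuallyEq (fun z _ => differentiable_riemannZeta₁.analyticAt z)
      (fun z _ => analyticAt_const (v := (0 : ℂ))) (htop : riemannZeta₁ =ᶠ[𝓝 s] fun _ => 0)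
    exact h7 (by rw [this])
  refine Nat.one_le_iff_ne_zero.2 fun h0 => ?_
  have h7 : analyticOrderAt riemannZeta₁ s = 0 := by
    rw [← Nat.cast_analyticOrderNatAt h6, h0]
    rfl
  rw [ha.analyticOrderAt_eq_zero] at h7
  exact h7 hz

lemma card_le_NN (σ x y : ℝ) (hx : 0 ≤ x) : (ZN_fin σ x y).toFinset.card ≤ NN σ x y := by
  unfold NN
  rw [DH31.cnt_eq (ZN_fin σ x y), Finset.card_eq_sum_ones]
  refine Finset.sum_le_sum fun s hs => ?_
  rw [Set.Finite.mem_toFinset] at hs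
  refine ord_one hs.1 fun h1 => ?_
  have h2 := hs.2.2.1
  rw [h1, Complex.one_im] at h2
  linarith

variable {A : ℝ → ℝ}

theorem bd_of_zd (hA : AdmE A) {h : ℝ} (hh : 0 < h) (hh1 : h ≤ 1) (H0 : ZD A) : BD h A := by
  classical
  intro ε hε
  obtain ⟨C, hC, T0, H⟩ := H0 ε hε
  obtain ⟨B, hB⟩ : ∃ B : ℝ, B = A (1 / 2) + ε := ⟨_, rfl⟩
  refine ⟨4 * (C * 2 ^ B), by positivity, max T0 2, fun T hT σ hσ hσ1 R hR hhR => ?_⟩
  have hT0 : T0 ≤ T := (le_max_left _ _).trans hT
  have hT2 : 2 ≤ T := (le_max_right _ _).trans hT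
  obtain ⟨b1, b2⟩ := hA.bdd hσ hσ1
  have hle1 : h * (R - 1 / R) ≤ 1 := by linarith
  set Z := (ZN_fin σ 0 (2 * T)).toFinset with hZ
  have hcard : (Z.card : ℝ) ≤ C * 2 ^ B * T ^ (A σ + ε) := by
    have h1 : (Z.card : ℝ) ≤ (NN σ 0 (2 * T) : ℝ) := by
      exact_mod_cast card_le_NN σ 0 (2 * T) le_rfl
    refine h1.trans ((H (2 * T) (by linarith) σ hσ hσ1).trans ?_)
    rw [mul_assoc]
    exact mul_le_mul_of_nonneg_left (two_mul_rpow (by linarith) (by rw [hB]; linarith)) hC.le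
  have hsub : {τ : ℝ | 2 ≤ τ ∧ τ ≤ T ∧ ¬ DecZ τ h R} ⊆ ⋃ s ∈ Z, Set.Icc (s.im - 2) (s.im + 2) := by
    rintro τ ⟨hτ2, hτT, hτ⟩
    rw [← zeta_iff hh hR (one_notMem hh hh1 hR hle1 hτ2)] at hτ
    push Not at hτ
    obtain ⟨s, hs, hs0⟩ := hτ
    have h3 := Es_re hh hR hs
    have h4 := (Es_im hh hs).trans (half_height hh hh1 hR hle1)
    rw [abs_le] at h4
    refine Set.mem_biUnion (x := s) ?_ ⟨by linarith, by linarith⟩
    rw [Finset.mem_coe, hZ, Set.Finite.mem_toFinset]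
    refine ⟨hs0, ?_, by linarith, by linarith⟩
    rw [hhR] at h3
    linarith
  calc volume {τ : ℝ | 2 ≤ τ ∧ τ ≤ T ∧ ¬ DecZ τ h R} ≤ _ := measure_mono hsub
    _ ≤ ∑ s ∈ Z, volume (Set.Icc (s.im - 2) (s.im + 2)) := measure_biUnion_finset_le Z _
    _ = ENNReal.ofReal (4 * Z.card) := by
        have h3 : ∀ s ∈ Z, volume (Set.Icc (s.im - 2) (s.im + 2)) = ENNReal.ofReal 4 := by
          intro s _
          rw [Real.volume_Icc]
          congr 1
          ring
        rw [Finset.sum_congr rfl h3, Finset.sum_const, nsmul_eq_mul, mul_comm (4 : ℝ),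
          ENNReal.ofReal_mul (by positivity), ENNReal.ofReal_natCast]
    _ ≤ _ := by
        refine ENNReal.ofReal_le_ofReal ?_
        rw [mul_assoc]
        exact mul_le_mul_of_nonneg_left hcard (by norm_num)

theorem cl_of_bd (hA : AdmE A) {h : ℝ} (hh : 0 < h) (hh1 : h ≤ 1) (H0 : BD h A) : CL A := by
  classical
  intro ε hε η hη
  obtain ⟨δ0, hδ0, hsh⟩ := hA.shift (ε := ε / 2) (by positivity)
  obtain ⟨δ, hδd⟩ : ∃ δ : ℝ, δ = min δ0 (1 / 4) := ⟨_, rfl⟩
  have hδ : 0 < δ := by rw [hδd]; exact lt_min hδ0 (by norm_num)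
  have hδ4 : δ ≤ 1 / 4 := by rw [hδd]; exact min_le_right _ _
  have hδδ : δ ≤ δ0 := by rw [hδd]; exact min_le_left _ _
  obtain ⟨C, hC, T0, H⟩ := H0 (ε / 2) (by positivity)
  obtain ⟨B, hB⟩ : ∃ B : ℝ, B = A (1 / 2) + ε / 2 := ⟨_, rfl⟩
  obtain ⟨c, hc⟩ : ∃ c : ℝ, c = δ ^ 2 / 8 := ⟨_, rfl⟩
  have hc0 : 0 < c := by rw [hc]; positivity
  have hc1 : c ≤ 1 / 2 := by rw [hc]; nlinarith
  refine ⟨C * 2 ^ B / c + 3, by positivity, max T0 2, fun T hT σ hσ hσ1 => ?_⟩
  have hT0 : T0 ≤ T := (le_max_left _ _).trans hT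
  have hT2 : 2 ≤ T := (le_max_right _ _).trans hT
  have hlog : 0 < Real.log T := Real.log_pos (by linarith)
  obtain ⟨K, hK⟩ : ∃ K : Finset ℕ, K = (Finset.range (⌊T⌋₊ + 1)).filter
      (fun n : ℕ => η * Real.log T ≤ NN σ n (n + 1)) := ⟨_, rfl⟩
  rw [← hK]
  have hKT : ∀ n ∈ K, (n : ℝ) ≤ T := fun n hn => by
    rw [hK, Finset.mem_filter, Finset.mem_range, Nat.lt_add_one_iff,
      Nat.le_floor_iff (by linarith)] at hn
    exact hn.1
  obtain ⟨b1, b2⟩ := hA.bdd hσ hσ1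
  have h1T : 1 ≤ T ^ (A σ + ε) := Real.one_le_rpow (by linarith) (by linarith)
  obtain ⟨s1, s2⟩ := hsh δ σ hδ.le hδδ hσ hσ1
  rcases lt_or_ge (σ - δ) (1 / 2) with hlt | hge
  · -- trivial bound
    have h1 := s2 hlt
    have h2 : (K.card : ℝ) ≤ T + 1 := by
      have h3 : K.card ≤ ⌊T⌋₊ + 1 := by
        rw [hK]
        exact (Finset.card_filter_le _ _).trans (by rw [Finset.card_range])
      have h4 : (K.card : ℝ) ≤ (⌊T⌋₊ : ℝ) + 1 := by exact_mod_cast h3
      have := Nat.floor_le (show 0 ≤ T by linarith)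
      linarith
    have h3 : T ≤ T ^ (A σ + ε) := by
      calc T = T ^ (1 : ℝ) := (Real.rpow_one T).symm
        _ ≤ _ := Real.rpow_le_rpow_of_exponent_le (by linarith) (by linarith)
    have h4 : 0 ≤ C * 2 ^ B / c * T ^ (A σ + ε) := by positivity
    have h5 : (C * 2 ^ B / c + 3) * T ^ (A σ + ε) =
        C * 2 ^ B / c * T ^ (A σ + ε) + 3 * T ^ (A σ + ε) := by ring
    rw [h5]
    linarith
  · have h1 := s1 hge
    obtain ⟨b3, b4⟩ := hA.bdd hge (show σ - δ ≤ 1 by linarith)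
    obtain ⟨R, hR, hhR⟩ := exists_R hh (show 0 < 2 * (1 - (σ - δ)) by linarith)
    have hle1 : h * (R - 1 / R) ≤ 1 := by linarith
    have hm := H (2 * T) (by linarith) (σ - δ) hge (by linarith) R hR hhR
    have hm2 : C * (2 * T) ^ (A (σ - δ) + ε / 2) ≤ C * 2 ^ B * T ^ (A σ + ε) := by
      have h3 : (2 * T) ^ (A (σ - δ) + ε / 2) ≤ 2 ^ B * T ^ (A (σ - δ) + ε / 2) :=
        two_mul_rpow (by linarith) (by rw [hB]; linarith)
      have h4 : T ^ (A (σ - δ) + ε / 2) ≤ T ^ (A σ + ε) :=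
        Real.rpow_le_rpow_of_exponent_le (by linarith) (by linarith)
      calc C * (2 * T) ^ (A (σ - δ) + ε / 2) ≤ C * (2 ^ B * T ^ (A (σ - δ) + ε / 2)) :=
            mul_le_mul_of_nonneg_left h3 hC.le
        _ ≤ C * (2 ^ B * T ^ (A σ + ε)) := by gcongr
        _ = _ := by ring
    -- the zeros in the windows
    have hz : ∀ n ∈ K, ∃ s : ℂ, riemannZeta s = 0 ∧ σ ≤ s.re ∧ (n : ℝ) < s.im ∧ s.im ≤ n + 1 := by
      intro n hn
      rw [hK, Finset.mem_filter] at hn
      by_contra hcon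
      push Not at hcon
      have h0 : ZN σ n (n + 1) = ∅ := by
        rw [Set.eq_empty_iff_forall_notMem]
        rintro s ⟨a1, a2, a3, a4⟩
        have := hcon s a1 a2 a3
        linarith
      have h2 : NN σ n (n + 1) = 0 := by
        unfold NN
        rw [h0]
        unfold DH31.cnt
        simp
      have h3 := hn.2
      rw [h2, Nat.cast_zero] at h3
      have : 0 < η * Real.log T := by positivity
      linarith
    choose! z hz0 hzσ hz1 hz2 using hz
    set J : ℕ → Set ℝ := fun n => if (n : ℝ) + 1 / 2 < (z n).im then Set.Ioo ((z n).im - c) (z n).im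
      else Set.Ioo (z n).im ((z n).im + c) with hJ
    have hJsub : ∀ n ∈ K, ∀ τ ∈ J n, (n : ℝ) < τ ∧ τ ≤ n + 1 ∧ |(z n).im - τ| ≤ c := by
      intro n hn τ hτ
      have a1 := hz1 n hn
      have a2 := hz2 n hn
      rw [hJ] at hτ
      simp only at hτ
      split_ifs at hτ with hcase
      · obtain ⟨c1, c2⟩ := hτ
        refine ⟨by linarith, by linarith, ?_⟩
        rw [abs_le]
        constructor <;> linarith
      · obtain ⟨c1, c2⟩ := hτ
        rw [not_lt] at hcase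
        refine ⟨by linarith, by linarith, ?_⟩
        rw [abs_le]
        constructor <;> linarith
    have hJm : ∀ n, MeasurableSet (J n) := by
      intro n
      rw [hJ]
      simp only
      split_ifs
      · exact measurableSet_Ioo
      · exact measurableSet_Ioo
    have hJv : ∀ n, volume (J n) = ENNReal.ofReal c := by
      intro n
      rw [hJ]
      simp only
      split_ifs
      · rw [Real.volume_Ioo]
        congr 1
        ring
      · rw [Real.volume_Ioo]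
        congr 1
        ring
    set K' := K.filter (fun n => 3 ≤ n) with hK'
    have hK'K : ∀ n ∈ K', n ∈ K ∧ 3 ≤ n := fun n hn => by rwa [hK', Finset.mem_filter] at hn
    have hdisj : (K' : Set ℕ).PairwiseDisjoint J := by
      intro n hn m hm hnm
      refine Set.disjoint_left.2 fun τ h2 h3 => hnm ?_
      obtain ⟨c1, c2, -⟩ := hJsub n (hK'K n hn).1 τ h2
      obtain ⟨c3, c4, -⟩ := hJsub m (hK'K m hm).1 τ h3
      have h4 : (n : ℝ) < m + 1 := by linarith
      have h5 : (m : ℝ) < n + 1 := by linarith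
      have h6 : n < m + 1 := by exact_mod_cast h4
      have h7 : m < n + 1 := by exact_mod_cast h5
      omega
    have hsub : (⋃ n ∈ K', J n) ⊆ {τ : ℝ | 2 ≤ τ ∧ τ ≤ 2 * T ∧ ¬ DecZ τ h R} := by
      intro τ hτ
      rw [Set.mem_iUnion₂] at hτ
      obtain ⟨n, hn, hτn⟩ := hτ
      obtain ⟨hnK, hn3⟩ := hK'K n hn
      obtain ⟨c1, c2, c3⟩ := hJsub n hnK τ hτn
      have h3n : (3 : ℝ) ≤ n := by exact_mod_cast hn3
      have hnT := hKT n hnK
      refine ⟨by linarith, by linarith, ?_⟩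
      rw [← zeta_iff hh hR (one_notMem hh hh1 hR hle1 (by linarith))]
      intro hall
      have hre : (z n).re ≤ 1 := by
        by_contra hcon
        exact riemannZeta_ne_zero_of_one_le_re (not_le.1 hcon).le (hz0 n hnK)
      refine hall (z n) ?_ (hz0 n hnK)
      refine Es_near hh hh1 hR hle1 hδ hre ?_ (by rw [← hc]; exact c3)
      rw [hhR]
      have := hzσ n hnK
      linarith
    have hvol : ENNReal.ofReal (K'.card * c) ≤ ENNReal.ofReal (C * 2 ^ B * T ^ (A σ + ε)) := by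
      calc ENNReal.ofReal (K'.card * c) = ∑ n ∈ K', volume (J n) := by
            rw [Finset.sum_congr rfl fun n _ => hJv n, Finset.sum_const, nsmul_eq_mul,
              ENNReal.ofReal_mul (by positivity), ENNReal.ofReal_natCast]
        _ = volume (⋃ n ∈ K', J n) := (measure_biUnion_finset hdisj fun n _ => hJm n).symm
        _ ≤ _ := (measure_mono hsub).trans (hm.trans (ENNReal.ofReal_le_ofReal hm2))
    have hvol2 : (K'.card : ℝ) * c ≤ C * 2 ^ B * T ^ (A σ + ε) :=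
      (ENNReal.ofReal_le_ofReal_iff (by positivity)).1 hvol
    have hcard : (K.card : ℝ) ≤ K'.card + 3 := by
      have h3 : K ⊆ K' ∪ Finset.range 3 := by
        intro n hn
        rw [Finset.mem_union, Finset.mem_range, hK', Finset.mem_filter]
        by_cases h4 : 3 ≤ n
        · exact Or.inl ⟨hn, h4⟩
        · exact Or.inr (by omega)
      have h4 := (Finset.card_le_card h3).trans (Finset.card_union_le _ _)
      rw [Finset.card_range] at h4
      exact_mod_cast h4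
    have h5 : (K'.card : ℝ) ≤ C * 2 ^ B / c * T ^ (A σ + ε) := by
      rw [div_mul_eq_mul_div, le_div_iff₀ hc0]
      exact hvol2
    have h6 : (C * 2 ^ B / c + 3) * T ^ (A σ + ε) =
        C * 2 ^ B / c * T ^ (A σ + ε) + 3 * T ^ (A σ + ε) := by ring
    rw [h6]
    linarith

/-- **zero density and the heights without decay** -/
theorem zd_iff_bd (hA : AdmE A) {h : ℝ} (hh : 0 < h) (hh1 : h ≤ 1) : ZD A ↔ BD h A := by
  constructor
  · exact bd_of_zd hA hh hh1
  · intro H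
    exact ((tfae hA).out 0 1).2 (cl_of_bd hA hh hh1 H)

end Pool.Agent.Q9.BE
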