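import Pool.Agent.Q9.BE.Loc
import Pool.Agent.W45.HF.NF2

/-!
# The Euler product of a newform of weight two
-/

set_option autoImplicit false

open Complex UpperHalfPlane MatrixGroups CongruenceSubgroup

namespace Pool.Agent.Q9.BE

open Pool.Agent.W169.HF (IsForm coef)
open Pool.Agent.W45.HF
open Pool.Agent.TH339.MP (PP FF tm summable_tm prime_pos two_le_prime rpow_neg_le_half)

/-- the coefficients of the logarithm of `∏_p ((1 - u_p p^{-s}) (1 - v_p p^{-s}))⁻¹` -/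
noncomputable def bb (u v : ℕ → ℂ) (x : PP) : ℂ :=
  ((u x.1) ^ (x.2 + 1) + (v x.1) ^ (x.2 + 1)) / ((x.2 + 1 : ℕ) : ℂ)

lemma norm_bb {u v : ℕ → ℂ} (hu : ∀ p : ℕ, p.Prime → ‖u p‖ ≤ 1) (hv : ∀ p : ℕ, p.Prime → ‖v p‖ ≤ 1)
    (x : PP) : ‖bb u v x‖ ≤ (2 : ℝ) / (x.2 + 1 : ℕ) := by
  unfold bb
  rw [norm_div, Complex.norm_natCast]
  refine div_le_div_of_nonneg_right ?_ (by positivity)
  refine (norm_add_le _ _).trans ?_
  rw [norm_pow, norm_pow]
  have h1 : ‖u x.1‖ ^ (x.2 + 1) ≤ 1 := pow_le_one₀ (norm_nonneg _) (hu _ x.1.2)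
  have h2 : ‖v x.1‖ ^ (x.2 + 1) ≤ 1 := pow_le_one₀ (norm_nonneg _) (hv _ x.1.2)
  linarith

/-- the logarithm of the Euler product -/
lemma euler_exp {u v : ℕ → ℂ} (hu : ∀ p : ℕ, p.Prime → ‖u p‖ ≤ 1)
    (hv : ∀ p : ℕ, p.Prime → ‖v p‖ ≤ 1) {s : ℂ} (hs : 1 < s.re) :
    ∏' p : Nat.Primes, ((1 - u p * ((p : ℕ) : ℂ) ^ (-s))⁻¹ * (1 - v p * ((p : ℕ) : ℂ) ^ (-s))⁻¹) =
      Complex.exp (FF (bb u v) s) := by
  classical
  have hsum := summable_tm (norm_bb hu hv) hs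
  have hlt : ∀ (w : ℕ → ℂ), (∀ p : ℕ, p.Prime → ‖w p‖ ≤ 1) → ∀ p : Nat.Primes,
      ‖w p * ((p : ℕ) : ℂ) ^ (-s)‖ < 1 := by
    intro w hw p
    rw [norm_mul, Complex.norm_natCast_cpow_of_pos p.2.pos, Complex.neg_re]
    have h1 := rpow_neg_le_half p hs.le
    have h2 : 0 ≤ ((p : ℕ) : ℝ) ^ (-s.re) := Real.rpow_nonneg (prime_pos p).le _
    calc ‖w p‖ * ((p : ℕ) : ℝ) ^ (-s.re) ≤ 1 * (1 / 2) := by
          refine mul_le_mul (hw _ p.2) ?_ h2 zero_le_one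
          linarith
      _ < 1 := by norm_num
  have hfib : ∀ p : Nat.Primes, HasSum (fun k : ℕ => tm (bb u v) s (p, k))
      (-Complex.log (1 - u p * ((p : ℕ) : ℂ) ^ (-s)) + -Complex.log (1 - v p * ((p : ℕ) : ℂ) ^ (-s))) := by
    intro p
    have h0 : ∀ z : ℂ, ‖z‖ < 1 → HasSum (fun k : ℕ => z ^ (k + 1) / ((k + 1 : ℕ) : ℂ))
        (-Complex.log (1 - z)) := by
      intro z hz
      have h1 := Complex.hasSum_taylorSeries_neg_log hz
      rw [← hasSum_nat_add_iff' 1] at h1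
      simp only [Finset.range_one, Finset.sum_singleton, pow_zero, CharP.cast_eq_zero, div_zero,
        sub_zero] at h1
      exact h1
    refine ((h0 _ (hlt u hu p)).add (h0 _ (hlt v hv p))).congr_fun ?_
    intro k
    unfold Pool.Agent.TH339.MP.tm bb
    simp only
    rw [mul_pow, mul_pow]
    ring
  have htot := hsum.hasSum.prod_fiberwise hfib
  have hprod := htot.cexp
  have hval : FF (bb u v) s = ∑' x, tm (bb u v) s x := rfl
  rw [hval, ← hprod.tprod_eq]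
  refine tprod_congr fun p => ?_
  simp only [Function.comp_apply]
  have hne : ∀ (w : ℕ → ℂ), (∀ p : ℕ, p.Prime → ‖w p‖ ≤ 1) → ∀ p : Nat.Primes,
      1 - w p * ((p : ℕ) : ℂ) ^ (-s) ≠ 0 := by
    intro w hw p h
    have h2 := hlt w hw p
    rw [sub_eq_zero] at h
    rw [← h, norm_one] at h2
    exact lt_irrefl _ h2
  rw [Complex.exp_add, Complex.exp_neg, Complex.exp_neg, Complex.exp_log (hne u hu p),
    Complex.exp_log (hne v hv p)]

/-! ### newforms -/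

variable {N : ℕ} {f : CuspForm (Gamma0 N : Subgroup (GL (Fin 2) ℝ)) 2} {w : ℝ}

lemma sqrt_cast (p : ℕ) : ((Real.sqrt (p : ℝ) : ℝ) : ℂ) ^ 2 = (p : ℂ) := by
  have := Real.sq_sqrt (Nat.cast_nonneg (α := ℝ) p)
  exact_mod_cast this

/-- the given eigenvalues -/
lemma given (hf : IsForm N f w) {α β : ℕ → ℂ} (h1 : ∀ p : ℕ, p.Prime → α p + β p = coef f p)
    (h2 : ∀ p : ℕ, p.Prime → α p * β p = if p ∣ N then 0 else (p : ℂ)) (p : ℕ) (hp : p.Prime) :
    ‖α p / ((Real.sqrt (p : ℝ) : ℝ) : ℂ)‖ ≤ 1 ∧ ‖β p / ((Real.sqrt (p : ℝ) : ℝ) : ℂ)‖ ≤ 1 ∧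
    ∀ j : ℕ, coef f (p ^ j) = hh (α p / ((Real.sqrt (p : ℝ) : ℝ) : ℂ))
      (β p / ((Real.sqrt (p : ℝ) : ℝ) : ℂ)) j * ((Real.sqrt (p : ℝ) : ℝ) : ℂ) ^ j := by
  obtain ⟨a, c, ha, hc, h⟩ := satake N f w hf p hp
  have hp0 : (0 : ℝ) < p := by exact_mod_cast hp.pos
  set q : ℂ := ((Real.sqrt (p : ℝ) : ℝ) : ℂ) with hq
  have hs0 : 0 < Real.sqrt p := Real.sqrt_pos.2 hp0
  have hq0 : q ≠ 0 := by
    rw [hq]
    exact_mod_cast hs0.ne'
  have hq2 : q ^ 2 = (p : ℂ) := sqrt_cast p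
  have hnq : ‖q‖ = Real.sqrt p := by rw [hq, Complex.norm_real, Real.norm_of_nonneg hs0.le]
  -- the polynomial with the roots `a q`, `c q`
  have hc1 := h 1
  rw [pow_one, hh_one, pow_one] at hc1
  have hc2 := h 2
  have hpw := hf.pow p 0 hp
  rw [zero_add, zero_add, pow_one, pow_zero, hf.one, mul_one] at hpw
  have hhh : hh a c 2 = (a + c) * (a + c) - a * c := by
    have := hh_rec a c 0
    rw [zero_add, zero_add, hh_one, hh_zero, mul_one] at this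
    exact this
  have hprod : a * c * q ^ 2 = if p ∣ N then 0 else (p : ℂ) := by
    rw [hpw, hc1, hhh] at hc2
    linear_combination hc2
  have key : ∀ z : ℂ, z * z - (α p + β p) * z + α p * β p = 0 → ‖z / q‖ ≤ 1 := by
    intro z hz
    rw [h1 p hp, h2 p hp, hc1, ← hprod] at hz
    have hz' : (z - a * q) * (z - c * q) = 0 := by linear_combination hz
    rcases mul_eq_zero.1 hz' with h3 | h3
    · rw [sub_eq_zero.1 h3, mul_div_cancel_right₀ _ hq0]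
      exact ha
    · rw [sub_eq_zero.1 h3, mul_div_cancel_right₀ _ hq0]
      exact hc
  refine ⟨key _ (by ring), key _ (by ring), fun j => ?_⟩
  rw [h j]
  congr 1
  have e1 : a + c = α p / q + β p / q := by
    rw [← add_div, h1 p hp, hc1, mul_div_cancel_right₀ _ hq0]
  have e2 : a * c = α p / q * (β p / q) := by
    rw [div_mul_div_comm, h2 p hp, ← hprod]
    field_simp
  induction j using Nat.strong_induction_on with
  | _ j ih =>
    rcases j with _ | _ | j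
    · rw [hh_zero, hh_zero]
    · rw [hh_one, hh_one, e1]
    · rw [hh_rec, hh_rec, ih (j + 1) (by omega), ih j (by omega), e1, e2]

/-- **The Euler product.** -/
theorem series_eq (hf : IsForm N f w) {α β : ℕ → ℂ} (h1 : ∀ p : ℕ, p.Prime → α p + β p = coef f p)
    (h2 : ∀ p : ℕ, p.Prime → α p * β p = if p ∣ N then 0 else (p : ℂ)) {s : ℂ} (hs : 1 < s.re) :
    ∑' n : ℕ, coef f (n + 1) * ((n + 1 : ℕ) : ℂ) ^ (-(s + 1 / 2)) =
      Complex.exp (FF (bb (fun p => α p / ((Real.sqrt (p : ℝ) : ℝ) : ℂ))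
        (fun p => β p / ((Real.sqrt (p : ℝ) : ℝ) : ℂ))) s) := by
  have hg := given hf h1 h2
  rw [← euler_exp (fun p hp => (hg p hp).1) (fun p hp => (hg p hp).2.1) hs]
  have h1 : Summable (fun n : ℕ => ‖coef f n * ((n : ℕ) : ℂ) ^ (-(s + 1 / 2))‖) :=
    Summable.of_nonneg_of_le (fun n => norm_nonneg _) (term_bd N f w hf s hs) (summable_div s hs)
  have hne : -(s + 1 / 2) ≠ 0 := by
    intro h
    have := congrArg Complex.re h
    simp at this
    linarith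
  have h0 : coef f 0 * ((0 : ℕ) : ℂ) ^ (-(s + 1 / 2)) = 0 := by
    rw [Nat.cast_zero, Complex.zero_cpow hne, mul_zero]
  have hE := EulerProduct.eulerProduct_tprod
    (f := fun n : ℕ => coef f n * ((n : ℕ) : ℂ) ^ (-(s + 1 / 2)))
    (by simp [hf.one]) (by
      intro m n hmn
      rw [hf.mul m n hmn, Nat.cast_mul, Complex.natCast_mul_natCast_cpow]
      ring) h1 h0
  rw [h1.of_norm.tsum_eq_zero_add, h0, zero_add] at hE
  rw [← hE]
  refine tprod_congr fun p => ?_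
  have hp := p.2
  have hp0 : (0 : ℝ) < ((p : ℕ) : ℝ) := by exact_mod_cast hp.pos
  have hx : ‖(((p : ℕ) : ℂ)) ^ (-s)‖ < 1 := by
    rw [Complex.norm_natCast_cpow_of_pos hp.pos, Complex.neg_re]
    exact Real.rpow_lt_one_of_one_lt_of_neg (by exact_mod_cast hp.one_lt) (by linarith)
  rw [← hh_tsum _ _ _ (hg p hp).1 (hg p hp).2.1 hx]
  refine tsum_congr fun j => ?_
  rw [(hg p hp).2.2 j, mul_assoc]
  congr 1
  have e1 : (((p : ℕ) ^ j : ℕ) : ℂ) ^ (-(s + 1 / 2)) = (((p : ℕ) : ℂ) ^ (-(s + 1 / 2))) ^ j := by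
    rw [← Complex.cpow_nat_mul, Nat.cast_pow, Complex.natCast_cpow_natCast_mul]
  rw [e1, ← mul_pow]
  congr 1
  have hpc : ((p : ℕ) : ℂ) ≠ 0 := by exact_mod_cast hp.ne_zero
  have e2 : ((Real.sqrt ((p : ℕ) : ℝ) : ℝ) : ℂ) = ((p : ℕ) : ℂ) ^ (1 / 2 : ℂ) := by
    rw [Real.sqrt_eq_rpow, Complex.ofReal_cpow hp0.le]
    push_cast
    rfl
  rw [e2, ← Complex.cpow_add _ _ hpc]
  congr 1
  ring

end Pool.Agent.Q9.BE
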