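import Pool.Agent.Q9.BE.Eu
import Pool.Agent.Q9.RH.Ec

/-!
# The Bessel criterion for the zeros of the L-function of an elliptic curve
-/

set_option autoImplicit false

open UpperHalfPlane hiding I
open Complex MatrixGroups CongruenceSubgroup

namespace Pool.Agent.Q9.BE

open MeasureTheory Filter Topology
open Pool.Agent.W169.HF (IsForm IsCompleted coef)
open Pool.Agent.TH339.MP (PP FF tm differentiableOn_FF)
open Pool.Agent.Q9.EL (Es psi ell bt chc fm ck chc_fm isOpen_Es convex_Es ell_im ell_norm)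

/-! ### the decay of the Bessel series -/

section
variable {b : PP → ℂ} {M : ℝ}

lemma decay_iff (hb : ∀ x, ‖b x‖ ≤ M / (x.2 + 1 : ℕ)) (τ : ℝ) {h R : ℝ} (hh : 0 < h) :
    (∀ r : ℝ, 1 < r → r < R → ∃ C : ℝ, ∀ n, ‖chc (fm b 0 τ h) n‖ ≤ C * (1 / r) ^ n) ↔
    ∀ r : ℝ, 1 < r → r < R → ∃ C : ℝ, ∀ k : ℕ, 1 ≤ k → ‖∑' x, bt b τ h k x‖ ≤ C / r ^ k := by
  have hn : ∀ n : ℕ, ‖chc (fm b 0 τ h) n‖ = 2 * ((n + 1 : ℕ) : ℝ) * ‖∑' x, bt b τ h (n + 1) x‖ := by
    intro n
    rw [chc_fm hb 0 τ hh]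
    unfold ck
    rw [Int.cast_zero, zero_mul, add_zero, norm_mul, norm_div, norm_pow, Complex.norm_I, one_pow,
      div_one, norm_mul, norm_mul, Complex.norm_I, mul_one, Complex.norm_natCast, Complex.norm_ofNat]
  constructor
  · intro H r hr hrR
    obtain ⟨C, hC⟩ := H r hr hrR
    have hr0 : 0 < r := by linarith
    refine ⟨C * r, fun k hk => ?_⟩
    obtain ⟨n, rfl⟩ := Nat.exists_eq_add_of_le' hk
    have h1 := hC n
    rw [hn] at h1
    have h2 : ‖∑' x, bt b τ h (n + 1) x‖ ≤ 2 * ((n + 1 : ℕ) : ℝ) * ‖∑' x, bt b τ h (n + 1) x‖ := by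
      have h3 : (1 : ℝ) ≤ 2 * ((n + 1 : ℕ) : ℝ) := by
        have : (1 : ℝ) ≤ ((n + 1 : ℕ) : ℝ) := by exact_mod_cast Nat.le_add_left 1 n
        linarith
      exact le_mul_of_one_le_left (norm_nonneg _) h3
    refine h2.trans (h1.trans (le_of_eq ?_))
    rw [one_div, inv_pow, pow_succ]
    field_simp
  · intro H r hr hrR
    obtain ⟨C, hC⟩ := H ((r + R) / 2) (by linarith) (by linarith)
    set q : ℝ := (r + R) / 2 with hq
    have hr0 : 0 < r := by linarith
    have hrq : r < q := by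
      rw [hq]
      linarith
    have hq0 : 0 < q := by linarith
    set y : ℝ := q / r with hy
    have hy1 : 1 < y := by
      rw [hy, one_lt_div hr0]
      exact hrq
    refine ⟨2 * |C| / ((y - 1) * r), fun n => ?_⟩
    rw [hn]
    have h1 := hC (n + 1) (by omega)
    have h2 : ((n + 1 : ℕ) : ℝ) ≤ y ^ (n + 1) / (y - 1) := by
      rw [le_div_iff₀ (by linarith)]
      have h3 := one_add_mul_le_pow (a := y - 1) (by linarith) (n + 1)
      have e : 1 + (y - 1) = y := by ring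
      rw [e] at h3
      linarith
    have hC' : C / q ^ (n + 1) ≤ |C| / q ^ (n + 1) :=
      div_le_div_of_nonneg_right (le_abs_self C) (by positivity)
    calc 2 * ((n + 1 : ℕ) : ℝ) * ‖∑' x, bt b τ h (n + 1) x‖
        ≤ 2 * (y ^ (n + 1) / (y - 1)) * (|C| / q ^ (n + 1)) := by
          refine mul_le_mul (mul_le_mul_of_nonneg_left h2 (by norm_num)) (h1.trans hC')
            (norm_nonneg _) ?_
          have : 0 < y - 1 := by linarith
          positivity
      _ = 2 * |C| / ((y - 1) * r) * (1 / r) ^ n := by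
          have hy' : y ^ (n + 1) = q ^ (n + 1) / r ^ (n + 1) := by rw [hy, div_pow]
          have h4 : y - 1 ≠ 0 := by linarith
          rw [hy', one_div, inv_pow, pow_succ r]
          field_simp

end

/-! ### the entire function -/

/-- `L(E, s + 1/2)` as a function of `Λ` -/
noncomputable def GG (N : ℕ) (Λ : ℂ → ℂ) (s : ℂ) : ℂ :=
  Λ (s + 1 / 2) * (Complex.Gamma (s + 1 / 2))⁻¹ *
    (((Real.sqrt N / (2 * Real.pi) : ℝ) : ℂ) ^ (s + 1 / 2))⁻¹

variable {N : ℕ} [NeZero N] {f : CuspForm (Gamma0 N : Subgroup (GL (Fin 2) ℝ)) 2} {w : ℝ}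
  {Λ : ℂ → ℂ}

lemma base_pos (N : ℕ) [NeZero N] : (0 : ℝ) < Real.sqrt N / (2 * Real.pi) := by
  have : (0 : ℝ) < N := by exact_mod_cast Nat.pos_of_neZero N
  have := Real.sqrt_pos.2 this
  have := Real.pi_pos
  positivity

lemma base_ne (N : ℕ) [NeZero N] : ((Real.sqrt N / (2 * Real.pi) : ℝ) : ℂ) ≠ 0 := by
  exact_mod_cast (base_pos N).ne'

lemma pow_ne (N : ℕ) [NeZero N] (s : ℂ) : ((Real.sqrt N / (2 * Real.pi) : ℝ) : ℂ) ^ s ≠ 0 := by
  rw [Complex.cpow_ne_zero_iff]
  exact Or.inl (base_ne N)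

lemma GG_diff (hΛ : Differentiable ℂ Λ) : Differentiable ℂ (GG N Λ) := by
  unfold GG
  have h0 : Differentiable ℂ fun s : ℂ => s + 1 / 2 := by fun_prop
  have h1 : Differentiable ℂ fun s : ℂ => (Complex.Gamma (s + 1 / 2))⁻¹ :=
    Complex.differentiable_one_div_Gamma.comp h0
  have h2 : Differentiable ℂ fun s : ℂ => ((Real.sqrt N / (2 * Real.pi) : ℝ) : ℂ) ^ (s + 1 / 2) :=
    fun s => (h0 s).const_cpow (Or.inl (base_ne N))
  exact ((hΛ.comp h0).mul h1).mul fun s => (h2 s).inv (pow_ne N _)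

lemma GG_ne (s : ℂ) (hs : 0 < (s + 1 / 2).re) : GG N Λ s ≠ 0 ↔ Λ (s + 1 / 2) ≠ 0 := by
  unfold GG
  have h1 := Complex.Gamma_ne_zero_of_re_pos hs
  have h2 := pow_ne N (s + 1 / 2)
  constructor
  · intro h h0
    apply h
    rw [h0, zero_mul, zero_mul]
  · intro h
    exact mul_ne_zero (mul_ne_zero h (inv_ne_zero h1)) (inv_ne_zero h2)

/-- the normalised eigenvalues -/
noncomputable def nrm (α : ℕ → ℂ) (p : ℕ) : ℂ := α p / ((Real.sqrt (p : ℝ) : ℝ) : ℂ)

omit [NeZero N] in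
lemma norm_b (hf : IsForm N f w) {α β : ℕ → ℂ} (h1 : ∀ p : ℕ, p.Prime → α p + β p = coef f p)
    (h2 : ∀ p : ℕ, p.Prime → α p * β p = if p ∣ N then 0 else (p : ℂ)) (x : PP) :
    ‖bb (nrm α) (nrm β) x‖ ≤ (2 : ℝ) / (x.2 + 1 : ℕ) :=
  norm_bb (fun p hp => (given hf h1 h2 p hp).1) (fun p hp => (given hf h1 h2 p hp).2.1) x

lemma GG_eq (hf : IsForm N f w) (hΛ : IsCompleted f Λ) {α β : ℕ → ℂ}
    (h1 : ∀ p : ℕ, p.Prime → α p + β p = coef f p)
    (h2 : ∀ p : ℕ, p.Prime → α p * β p = if p ∣ N then 0 else (p : ℂ)) {s : ℂ} (hs : 1 < s.re) :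
    GG N Λ s = Complex.exp (FF (bb (nrm α) (nrm β)) s) := by
  have hb := norm_b hf h1 h2
  have hV : IsOpen {s : ℂ | 1 < s.re} := isOpen_lt continuous_const Complex.continuous_re
  have hW : IsOpen {s : ℂ | 3 / 2 < s.re} := isOpen_lt continuous_const Complex.continuous_re
  have key : ∀ s : ℂ, 3 / 2 < s.re → GG N Λ s = Complex.exp (FF (bb (nrm α) (nrm β)) s) := by
    intro s hs
    have e := series_eq hf h1 h2 (show 1 < s.re by linarith)
    have e1 : (s + 1 / 2).re = s.re + 1 / 2 := by simp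
    unfold GG
    rw [hΛ.2 (s + 1 / 2) (by rw [e1]; linarith), e]
    have h3 := Complex.Gamma_ne_zero_of_re_pos (s := s + 1 / 2) (by rw [e1]; linarith)
    have h4 := pow_ne N (s + 1 / 2)
    change _ = Complex.exp (FF (bb (nrm α) (nrm β)) s)
    have e2 : (bb (fun p => α p / ((Real.sqrt (p : ℝ) : ℝ) : ℂ))
        (fun p => β p / ((Real.sqrt (p : ℝ) : ℝ) : ℂ))) = bb (nrm α) (nrm β) := rfl
    rw [e2]
    generalize ((Real.sqrt N / (2 * Real.pi) : ℝ) : ℂ) ^ (s + 1 / 2) = A at h4 ⊢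
    generalize Complex.Gamma (s + 1 / 2) = B at h3 ⊢
    field_simp
  have ha1 : AnalyticOnNhd ℂ (GG N Λ) {s : ℂ | 1 < s.re} :=
    (GG_diff hΛ.1).differentiableOn.analyticOnNhd hV
  have ha2 : AnalyticOnNhd ℂ (fun s => Complex.exp (FF (bb (nrm α) (nrm β)) s))
      {s : ℂ | 1 < s.re} := (DifferentiableOn.cexp (differentiableOn_FF hb)).analyticOnNhd hV
  refine ha1.eqOn_of_preconnected_of_eventuallyEq ha2 (convex_halfSpace_re_gt 1).isPreconnected
    (z₀ := 2) (by simp) ?_ hs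
  filter_upwards [hW.mem_nhds (show (2 : ℂ) ∈ {s : ℂ | 3 / 2 < s.re} by
    simp only [Set.mem_ofPred_eq]; norm_num)] with z hz using key z hz

/-! ### the ellipses -/

/-- the open ellipse with the foci `3/2 + i (τ ± h)` -/
def Ell (τ h R : ℝ) : Set ℂ :=
  {s : ℂ | ‖s - (3 / 2 + (τ + h) * Complex.I)‖ + ‖s - (3 / 2 + (τ - h) * Complex.I)‖ <
    h * (R + 1 / R)}

lemma mem_Ell {τ h R : ℝ} (hh : 0 < h) (s : ℂ) : s ∈ Ell τ h R ↔ s - 1 / 2 ∈ Es τ h R := by
  have hh' : (h : ℂ) ≠ 0 := by exact_mod_cast hh.ne'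
  have e1 : psi τ h (s - 1 / 2) - 1 = -Complex.I * (s - (3 / 2 + (τ + h) * Complex.I)) / h := by
    unfold Pool.Agent.Q9.EL.psi
    rw [eq_div_iff hh', sub_mul, div_mul_cancel₀ _ hh']
    linear_combination (-(τ : ℂ) - h) * Complex.I_mul_I
  have e2 : psi τ h (s - 1 / 2) + 1 = -Complex.I * (s - (3 / 2 + (τ - h) * Complex.I)) / h := by
    unfold Pool.Agent.Q9.EL.psi
    rw [eq_div_iff hh', add_mul, div_mul_cancel₀ _ hh']
    linear_combination (-(τ : ℂ) + h) * Complex.I_mul_I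
  change _ ↔ ‖psi τ h (s - 1 / 2) - 1‖ + ‖psi τ h (s - 1 / 2) + 1‖ < R + 1 / R
  rw [e1, e2, norm_div, norm_div, norm_mul, norm_mul, norm_neg, Complex.norm_I, one_mul, one_mul,
    Complex.norm_real, Real.norm_of_nonneg hh.le, ← add_div, div_lt_iff₀ hh]
  unfold Ell
  rw [Set.mem_ofPred_eq, mul_comm h]

/-- the ellipse is in the half-plane `Re s > 3/2 - h (R - 1/R) / 2` -/
lemma Ell_re {τ h R : ℝ} (hh : 0 < h) (hR : 1 < R) {s : ℂ} (hs : s ∈ Ell τ h R) :
    3 / 2 - h * (R - 1 / R) / 2 < s.re := by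
  rw [mem_Ell hh] at hs
  obtain ⟨r, hr, hrR, hsr⟩ := Es_exists hR hs
  have h1 := ell_im hr (show psi τ h (s - 1 / 2) ∈ ell r from hsr)
  have e : (psi τ h (s - 1 / 2)).im = -(s.re - 3 / 2) / h := by
    unfold Pool.Agent.Q9.EL.psi
    rw [Complex.div_ofReal_im]
    congr 1
    simp
    ring
  rw [e, abs_le] at h1
  have h2 := h1.2
  rw [div_le_iff₀ hh] at h2
  have h3 : r - 1 / r < R - 1 / R := by
    have : 1 / R < 1 / r := one_div_lt_one_div_of_lt (by linarith) hrR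
    linarith
  have h4 : (r - 1 / r) / 2 * h < h * (R - 1 / R) / 2 := by
    have := mul_lt_mul_of_pos_left h3 hh
    linarith
  linarith

lemma Ell_im {τ h R : ℝ} (hh : 0 < h) {s : ℂ} (hs : s ∈ Ell τ h R) :
    |s.im - τ| ≤ h * (R + 1 / R) / 2 := by
  rw [mem_Ell hh] at hs
  have h1 := (Complex.abs_re_le_norm _).trans (ell_norm (show psi τ h (s - 1 / 2) ∈ ell R from hs))
  have e : (psi τ h (s - 1 / 2)).re = (s.im - τ) / h := by
    unfold Pool.Agent.Q9.EL.psi
    rw [Complex.div_ofReal_re]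
    congr 1
    simp
  rw [e, abs_div, abs_of_pos hh, div_le_iff₀ hh] at h1
  linarith

/-- the points at the height `τ` -/
lemma Ell_mem {h R : ℝ} (hh : 0 < h) (hR : 1 < R) {s : ℂ} (hs : s.re ≤ 3 / 2)
    (hs' : 3 / 2 - h * (R - 1 / R) / 2 < s.re) : s ∈ Ell s.im h R := by
  have hR0 : R ≠ 0 := by linarith
  set x : ℝ := s.re - 3 / 2 with hx
  have key : ∀ y : ℝ, y ^ 2 = h ^ 2 → ‖(x : ℂ) + y * Complex.I‖ < h * (R + 1 / R) / 2 := by
    intro y hy
    rw [Complex.norm_def, Complex.normSq_add_mul_I, hy, Real.sqrt_lt' (by positivity)]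
    have h1 : x ^ 2 < (h * (R - 1 / R) / 2) ^ 2 := by
      rw [sq_lt_sq]
      have h2 : 0 ≤ h * (R - 1 / R) / 2 := by
        have : 1 / R ≤ 1 := by
          rw [div_le_one (by linarith)]
          exact hR.le
        have : 0 ≤ R - 1 / R := by linarith
        positivity
      rw [abs_of_nonneg h2, abs_lt]
      constructor <;> linarith
    have e : (h * (R + 1 / R) / 2) ^ 2 = (h * (R - 1 / R) / 2) ^ 2 + h ^ 2 := by
      field_simp
      ring
    rw [e]
    linarith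
  have h1 := key (-h) (by ring)
  have h2 := key h rfl
  have hs3 := Complex.re_add_im s
  have e1 : s - (3 / 2 + (s.im + h) * Complex.I) = (x : ℂ) + ((-h : ℝ) : ℂ) * Complex.I := by
    rw [hx]
    push_cast
    linear_combination -hs3
  have e2 : s - (3 / 2 + (s.im - h) * Complex.I) = (x : ℂ) + ((h : ℝ) : ℂ) * Complex.I := by
    rw [hx]
    push_cast
    linear_combination -hs3
  change ‖_‖ + ‖_‖ < _
  rw [e1, e2]
  linarith

/-! ### the criterion -/

/-- the decay of the Bessel series -/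
def Dec (α β : ℕ → ℂ) (τ h R : ℝ) : Prop :=
  ∀ r : ℝ, 1 < r → r < R → ∃ C : ℝ, ∀ k : ℕ, 1 ≤ k →
    ‖∑' x, bt (bb (nrm α) (nrm β)) τ h k x‖ ≤ C / r ^ k

section
variable (hf : IsForm N f w) (hΛ : IsCompleted f Λ) {α β : ℕ → ℂ}
    (h1 : ∀ p : ℕ, p.Prime → α p + β p = coef f p)
    (h2 : ∀ p : ℕ, p.Prime → α p * β p = if p ∣ N then 0 else (p : ℂ))
include hf hΛ h1 h2

/-- **the local criterion** -/
theorem ell_iff (τ : ℝ) {h R : ℝ} (hh : 0 < h) (hR : 1 < R) (hhR : h * (R - 1 / R) ≤ 3) :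
    (∀ s ∈ Ell τ h R, Λ s ≠ 0) ↔ Dec α β τ h R := by
  have hb := norm_b hf h1 h2
  unfold Dec
  rw [← decay_iff hb τ hh, ← zero_free_iff hb τ hh hR (GG_diff (N := N) hΛ.1)
    fun s hs => GG_eq hf hΛ h1 h2 hs]
  constructor
  · intro H s hs
    have hs' : s + 1 / 2 ∈ Ell τ h R := by
      rw [mem_Ell hh, add_sub_cancel_right]
      exact hs
    rw [GG_ne]
    · exact H _ hs'
    · have := Ell_re hh hR hs'
      linarith
  · intro H s hs
    have hs' := (mem_Ell hh s).1 hs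
    have h3 := H _ hs'
    have e : s - 1 / 2 + 1 / 2 = s := by ring
    rw [GG_ne, e] at h3
    · exact h3
    · rw [e]
      have := Ell_re hh hR hs
      linarith

/-- no zeros in the half-plane of absolute convergence -/
lemma no_zero_right {s : ℂ} (hs : 3 / 2 < s.re) : Λ s ≠ 0 := by
  have e : s - 1 / 2 + 1 / 2 = s := by ring
  have e1 : (s - 1 / 2).re = s.re - 1 / 2 := by simp
  have h3 := GG_eq hf hΛ h1 h2 (s := s - 1 / 2) (by rw [e1]; linarith)
  have h4 : GG N Λ (s - 1 / 2) ≠ 0 := by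
    rw [h3]
    exact Complex.exp_ne_zero _
  rw [GG_ne, e] at h4
  · exact h4
  · rw [e]
    linarith

/-- **the global criterion** -/
theorem rh_iff (hfe : ∀ s : ℂ, Λ (2 - s) = (w : ℂ) * Λ s) {h R : ℝ} (hh : 0 < h) (hR : 1 < R)
    (hhR : h * (R - 1 / R) = 1) :
    (∀ s : ℂ, Λ s = 0 → s.re = 1) ↔ ∀ τ : ℝ, Dec α β τ h R := by
  have hmain := fun τ : ℝ => ell_iff hf hΛ h1 h2 τ hh hR (by rw [hhR]; norm_num)
  simp_rw [← hmain]
  constructor
  · intro H τ s hs h0
    have h3 := Ell_re hh hR hs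
    rw [hhR] at h3
    have h4 := H s h0
    linarith
  · intro H
    have h5 : ∀ s : ℂ, Λ s = 0 → s.re ≤ 1 := by
      intro s h0
      by_contra hcon
      rw [not_le] at hcon
      rcases le_or_gt s.re (3 / 2) with h6 | h6
      · exact H s.im s (Ell_mem hh hR h6 (by rw [hhR]; linarith)) h0
      · exact no_zero_right hf hΛ h1 h2 h6 h0
    intro s h0
    have h6 := h5 s h0
    have h7 : Λ (2 - s) = 0 := by rw [hfe, h0, mul_zero]
    have h8 := h5 _ h7
    have e : (2 - s).re = 2 - s.re := by simp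
    rw [e] at h8
    linarith

/-- the heights without decay -/
def Bad (α β : ℕ → ℂ) (h R T : ℝ) : Set ℝ := {τ : ℝ | 0 ≤ τ ∧ τ ≤ T ∧ ¬ Dec α β τ h R}

/-- **the decay at almost all heights** -/
theorem bad_meas {c : ℝ} (hc0 : 0 < c) (hc : c < 1) :
    ∃ C : ℝ, 0 < C ∧ ∀ h R T : ℝ, 0 < h → h ≤ 1 → 1 < R → h * (R - 1 / R) ≤ 1 → 2 ≤ T →
      volume (Bad α β h R T) ≤
        ENNReal.ofReal (C * T ^ (1 - c * ((1 - h * (R - 1 / R)) / 2)) * Real.log T) := by
  classical
  obtain ⟨C, hC, hden⟩ := Pool.Agent.Q9.RH.density hf hΛ hc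
  have hl2 : 0 < Real.log 2 := Real.log_pos (by norm_num)
  refine ⟨16 * C + 2 / Real.log 2, by positivity, fun h R T hh hh1 hR hhR hT => ?_⟩
  set d : ℝ := (1 - h * (R - 1 / R)) / 2 with hd
  have hd0 : 0 ≤ d := by
    rw [hd]
    linarith
  have hR1 : 0 < h * (R - 1 / R) := by
    have : 1 / R < 1 := by
      rw [div_lt_one (by linarith)]
      exact hR
    have : 0 < R - 1 / R := by linarith
    positivity
  have hd2 : d < 1 / 2 := by
    rw [hd]
    linarith
  have hcd : c * d < 1 / 2 := by nlinarith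
  have hT0 : 0 < T := by linarith
  -- the height of the ellipse
  have hB : h * (R + 1 / R) / 2 ≤ 2 := by
    have hR0 : R ≠ 0 := by linarith
    have e : (h * (R + 1 / R) / 2) ^ 2 = (h * (R - 1 / R) / 2) ^ 2 + h ^ 2 := by
      field_simp
      ring
    have h3 : (h * (R + 1 / R) / 2) ^ 2 ≤ 2 ^ 2 := by
      rw [e]
      nlinarith
    exact le_of_sq_le_sq h3 (by norm_num)
  obtain ⟨hfin, hcnt⟩ := hden d (2 * T) hd0 (by linarith)
  set Z := hfin.toFinset with hZ
  have hne : ∃ s, Λ s ≠ 0 := ⟨2, no_zero_right hf hΛ h1 h2 (by norm_num)⟩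
  have hord : ∀ s ∈ Z, 1 ≤ analyticOrderNatAt Λ s := by
    intro s hs
    rw [hZ, Set.Finite.mem_toFinset] at hs
    have hs0 : Λ s = 0 := hs.1
    have ha : AnalyticAt ℂ Λ s := hΛ.1.analyticAt s
    have h6 : analyticOrderAt Λ s ≠ ⊤ := by
      intro htop
      rw [analyticOrderAt_eq_top] at htop
      obtain ⟨s₁, hs₁⟩ := hne
      have := AnalyticOnNhd.eq_of_eventuallyEq (fun z _ => hΛ.1.analyticAt z)
        (fun z _ => analyticAt_const (v := (0 : ℂ))) (htop : Λ =ᶠ[𝓝 s] fun _ => 0)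
      exact hs₁ (by rw [this])
    refine Nat.one_le_iff_ne_zero.2 fun h0 => ?_
    have h7 : analyticOrderAt Λ s = 0 := by
      rw [← Nat.cast_analyticOrderNatAt h6, h0]
      rfl
    rw [ha.analyticOrderAt_eq_zero] at h7
    exact h7 hs0
  have hcard : (Z.card : ℝ) ≤ C * (2 * T) ^ (1 - c * d) * Real.log (2 * T) := by
    refine le_trans ?_ hcnt
    rw [finsum_mem_eq_finite_toFinset_sum _ hfin]
    have : Z.card ≤ ∑ s ∈ Z, analyticOrderNatAt Λ s := by
      rw [Finset.card_eq_sum_ones]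
      exact Finset.sum_le_sum hord
    exact_mod_cast this
  have hpw : (2 * T) ^ (1 - c * d) ≤ 2 * T ^ (1 - c * d) := by
    rw [Real.mul_rpow (by norm_num) hT0.le]
    refine mul_le_mul_of_nonneg_right ?_ (Real.rpow_nonneg hT0.le _)
    have h3 : (2 : ℝ) ^ (1 - c * d) ≤ 2 ^ (1 : ℝ) :=
      Real.rpow_le_rpow_of_exponent_le (by norm_num) (by
        have := mul_nonneg hc0.le hd0
        linarith)
    rwa [Real.rpow_one] at h3
  have hlog : Real.log (2 * T) ≤ 2 * Real.log T := by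
    rw [Real.log_mul (by norm_num) hT0.ne']
    have := Real.log_le_log (by norm_num) hT
    linarith
  have hlT : 0 < Real.log T := Real.log_pos (by linarith)
  have hcard2 : (Z.card : ℝ) ≤ 4 * C * T ^ (1 - c * d) * Real.log T := by
    refine hcard.trans ?_
    calc C * (2 * T) ^ (1 - c * d) * Real.log (2 * T)
        ≤ C * (2 * T ^ (1 - c * d)) * (2 * Real.log T) := by
          refine mul_le_mul (mul_le_mul_of_nonneg_left hpw hC.le) hlog ?_ (by positivity)
          exact (Real.log_pos (by linarith)).le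
      _ = _ := by ring
  -- the cover
  have hsub : Bad α β h R T ⊆ (⋃ s ∈ Z, Set.Icc (s.im - 2) (s.im + 2)) ∪ Set.Icc 0 2 := by
    rintro τ ⟨hτ0, hτT, hτ⟩
    rw [← ell_iff hf hΛ h1 h2 τ hh hR (by linarith)] at hτ
    push Not at hτ
    obtain ⟨s, hs, hs0⟩ := hτ
    have h3 := Ell_re hh hR hs
    have h4 := (Ell_im hh hs).trans hB
    rw [abs_le] at h4
    rcases le_or_gt τ 2 with h5 | h5
    · exact Or.inr ⟨hτ0, h5⟩
    · left
      refine Set.mem_biUnion (x := s) ?_ ⟨by linarith, by linarith⟩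
      rw [Finset.mem_coe, hZ, Set.Finite.mem_toFinset]
      refine ⟨hs0, ?_, by linarith, by linarith⟩
      have h6 : d ≤ s.re - 1 := by
        rw [hd]
        linarith
      exact h6.trans (le_abs_self _)
  have h1T : 1 ≤ T ^ (1 - c * d) := Real.one_le_rpow (by linarith) (by linarith)
  calc volume (Bad α β h R T) ≤ _ := measure_mono hsub
    _ ≤ volume (⋃ s ∈ Z, Set.Icc (s.im - 2) (s.im + 2)) + volume (Set.Icc (0 : ℝ) 2) :=
        measure_union_le _ _
    _ ≤ ENNReal.ofReal (4 * Z.card) + ENNReal.ofReal 2 := by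
        refine add_le_add ((measure_biUnion_finset_le Z _).trans (le_of_eq ?_)) (le_of_eq ?_)
        · have h3 : ∀ s ∈ Z, volume (Set.Icc (s.im - 2) (s.im + 2)) = ENNReal.ofReal 4 := by
            intro s _
            rw [Real.volume_Icc]
            congr 1
            ring
          rw [Finset.sum_congr rfl h3, Finset.sum_const, nsmul_eq_mul, mul_comm (4 : ℝ),
            ENNReal.ofReal_mul (by positivity), ENNReal.ofReal_natCast]
        · rw [Real.volume_Icc]
          congr 1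
          ring
    _ = ENNReal.ofReal (4 * Z.card + 2) := by
        rw [← ENNReal.ofReal_add (by positivity) (by norm_num)]
    _ ≤ _ := by
        refine ENNReal.ofReal_le_ofReal ?_
        have h3 : (2 : ℝ) ≤ 2 / Real.log 2 * T ^ (1 - c * d) * Real.log T := by
          have h4 : Real.log 2 ≤ Real.log T := Real.log_le_log (by norm_num) hT
          have h5 : Real.log 2 ≤ T ^ (1 - c * d) * Real.log T := by
            calc Real.log 2 ≤ Real.log T := h4
              _ = 1 * Real.log T := (one_mul _).symm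
              _ ≤ _ := mul_le_mul_of_nonneg_right h1T hlT.le
          rw [mul_assoc, div_mul_eq_mul_div, le_div_iff₀ hl2]
          linarith
        calc 4 * (Z.card : ℝ) + 2
            ≤ 4 * (4 * C * T ^ (1 - c * d) * Real.log T) +
              2 / Real.log 2 * T ^ (1 - c * d) * Real.log T := by linarith
          _ = _ := by ring

end

end Pool.Agent.Q9.BE
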