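import Pool.Agent.Q9.EL.Bes5

/-!
# Holomorphic logarithms on convex sets, and the local criterion
-/

set_option autoImplicit false

namespace Pool.Agent.Q9.BE

open MeasureTheory Filter Topology

/-- a holomorphic logarithm of a holomorphic function without zeros on a convex open set -/
lemma log_convex {U : Set ℂ} (hU : IsOpen U) (hc : Convex ℝ U) (hne : U.Nonempty) {g : ℂ → ℂ}
    (hg : DifferentiableOn ℂ g U) (hg0 : ∀ s ∈ U, g s ≠ 0) :
    ∃ L : ℂ → ℂ, DifferentiableOn ℂ L U ∧ ∀ s ∈ U, Complex.exp (L s) = g s := by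
  have hsc : IsSimplyConnected U := by
    have : ContractibleSpace U := hc.contractibleSpace hne
    unfold IsSimplyConnected
    infer_instance
  obtain ⟨L, hL, hLe⟩ := Complex.exists_continuousOn_eqOn_exp_comp hsc hU hg.continuousOn (by
    rintro ⟨s, hs, h0⟩
    exact hg0 s hs h0)
  have hLe' : ∀ s ∈ U, Complex.exp (L s) = g s := fun s hs => hLe hs
  refine ⟨L, fun z hz => ?_, hLe'⟩
  have hLc : ContinuousAt L z := hL.continuousAt (hU.mem_nhds hz)
  have hgz : DifferentiableAt ℂ g z := hg.differentiableAt (hU.mem_nhds hz)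
  have h0 := hg0 z hz
  -- near `z` the logarithm is `L z + log (g / g z)`
  have hq : DifferentiableAt ℂ (fun s => L z + Complex.log (g s / g z)) z := by
    refine DifferentiableAt.const_add _ (DifferentiableAt.clog (hgz.div_const _) ?_)
    rw [div_self h0]
    exact Complex.one_mem_slitPlane
  have hev : L =ᶠ[𝓝 z] fun s => L z + Complex.log (g s / g z) := by
    have h1 : Tendsto (fun s => L s - L z) (𝓝 z) (𝓝 0) := by
      have := hLc.tendsto.sub_const (L z)
      rwa [sub_self] at this
    have h2 : ∀ᶠ s in 𝓝 z, ‖L s - L z‖ < Real.pi := by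
      have h3 := h1.norm
      rw [norm_zero] at h3
      exact h3.eventually (gt_mem_nhds Real.pi_pos)
    filter_upwards [h2, hU.mem_nhds hz] with s hs hsU
    have h3 := (Complex.abs_im_le_norm _).trans_lt hs
    rw [abs_lt] at h3
    have h4 : g s / g z = Complex.exp (L s - L z) := by
      rw [Complex.exp_sub, hLe' s hsU, hLe' z hz]
    rw [h4, Complex.log_exp h3.1 h3.2.le]
    ring
  exact (hq.congr_of_eventuallyEq hev).differentiableWithinAt

end Pool.Agent.Q9.BE
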