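import Pool.Agent.Q9.BE.Lg

/-!
# The local criterion
-/

set_option autoImplicit false

namespace Pool.Agent.Q9.BE

open MeasureTheory Filter Topology
open Pool.Agent.TH339.MP (PP PS bl boundary FF tm M_nonneg radial_x unique_b ap
  ae_notMem differentiableOn_FF)
open Pool.Agent.Q9.EL

variable {b : PP → ℂ} {M : ℝ}

lemma line_mem_Es (τ : ℝ) {h ρ : ℝ} (hh : 0 < h) (hρ : 1 < ρ) {u : ℝ} (hu : u ∈ Set.Icc (-1 : ℝ) 1) :
    (1 + ((τ + h * u : ℝ) : ℂ) * Complex.I : ℂ) ∈ Es τ h ρ := by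
  change psi τ h _ ∈ ell ρ
  have e : (1 + ((τ + h * u : ℝ) : ℂ) * Complex.I : ℂ) = 1 + (τ + h * (u : ℂ)) * Complex.I := by
    push_cast
    ring
  rw [e, psi_line τ hh]
  have : (u : ℂ) = Complex.cos ((Real.arccos u : ℝ) : ℂ) := by
    rw [← Complex.ofReal_cos, Real.cos_arccos hu.1 hu.2]
  rw [this, cos_mem_ell hρ]
  simpa using Real.log_pos hρ

/-- **from the continuation to the coefficients**, in one ellipse -/
lemma coef_loc (hb : ∀ x, ‖b x‖ ≤ M / (x.2 + 1 : ℕ)) (m : ℤ) (τ : ℝ) {h r ρ : ℝ} (hh : 0 < h)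
    (hr : 1 < r) (hrρ : r < ρ) {g : ℂ → ℂ}
    (hg : DifferentiableOn ℂ g (Es τ h ρ)) (hg0 : ∀ s ∈ Es τ h ρ, g s ≠ 0)
    (hgF : ∀ s ∈ Es τ h ρ, 1 < s.re → g s = (s - 1) ^ m * Complex.exp (FF b s)) :
    ∃ C : ℝ, ∀ n, ‖chc (fm b m τ h) n‖ ≤ C * (1 / r) ^ n := by
  have hρ1 : 1 < ρ := hr.trans hrρ
  have hEo : IsOpen (Es τ h ρ) := isOpen_Es τ h ρ
  have hEne : (Es τ h ρ).Nonempty := ⟨_, line_mem_Es τ hh hρ1 (u := 0) (by norm_num)⟩
  obtain ⟨L₁, hL₁d, hL₁e⟩ := log_convex hEo (convex_Es τ h ρ) hEne hg hg0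
  -- comparison with the Dirichlet series
  set V : Set ℂ := Es τ h ρ ∩ {s : ℂ | 1 < s.re} with hV
  have hVo : IsOpen V := hEo.inter (isOpen_lt continuous_const Complex.continuous_re)
  have hVc : IsPreconnected V :=
    ((convex_Es τ h ρ).inter (convex_halfSpace_re_gt 1)).isPreconnected
  have hslit : ∀ s : ℂ, 1 < s.re → s - 1 ∈ Complex.slitPlane := by
    intro s hs
    refine Or.inl ?_
    rw [Complex.sub_re, Complex.one_re]
    linarith
  set D : ℂ → ℂ := fun s => FF b s + m * Complex.log (s - 1) - L₁ s with hD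
  have hDd : DifferentiableOn ℂ D V := by
    refine DifferentiableOn.sub (DifferentiableOn.add
      ((differentiableOn_FF hb).mono Set.inter_subset_right) ?_) (hL₁d.mono Set.inter_subset_left)
    refine DifferentiableOn.const_mul ?_ _
    exact DifferentiableOn.clog (by fun_prop) fun s hs => hslit s hs.2
  have hDe : ∀ s ∈ V, Complex.exp (D s) = 1 := by
    intro s hs
    have hne : s - 1 ≠ 0 := Complex.slitPlane_ne_zero (hslit s hs.2)
    rw [hD]
    simp only
    rw [Complex.exp_sub, hL₁e s hs.1, hgF s hs.1 hs.2, Complex.exp_add, Complex.exp_int_mul,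
      Complex.exp_log hne, mul_comm, div_self]
    exact mul_ne_zero (zpow_ne_zero _ hne) (Complex.exp_ne_zero _)
  obtain ⟨c₁, hc₁⟩ : ∃ c₁ : ℂ, ∀ s ∈ V, D s = c₁ := by
    refine hVo.exists_is_const_of_deriv_eq_zero hVc hDd fun s hs => ?_
    have h1 : HasDerivAt D (deriv D s) s := (hDd.differentiableAt (hVo.mem_nhds hs)).hasDerivAt
    have h2 : HasDerivAt (fun s => Complex.exp (D s)) (Complex.exp (D s) * deriv D s) s := h1.cexp
    have h3 : (fun s => Complex.exp (D s)) =ᶠ[𝓝 s] fun _ => 1 := by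
      filter_upwards [hVo.mem_nhds hs] with z hz using hDe z hz
    have h4 : HasDerivAt (fun s => Complex.exp (D s)) 0 s :=
      (hasDerivAt_const s (1 : ℂ)).congr_of_eventuallyEq h3
    have h5 := h2.unique h4
    rw [hDe s hs, one_mul] at h5
    exact h5
  -- the boundary function
  have hsub : ∀ z ∈ ell ρ, (1 + (τ + h * z) * Complex.I : ℂ) ∈ Es τ h ρ := by
    intro z hz
    change psi τ h _ ∈ ell ρ
    rwa [psi_line τ hh]
  set φ : ℂ → ℂ := fun z => L₁ (1 + (τ + h * z) * Complex.I) + c₁ with hφ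
  have hφd : DifferentiableOn ℂ φ (ell ρ) := by
    refine DifferentiableOn.add_const _ ?_
    exact hL₁d.comp (by fun_prop : Differentiable ℂ fun z : ℂ =>
      (1 + (τ + h * z) * Complex.I : ℂ)).differentiableOn hsub
  have hae : ∀ᵐ u : ℝ, u ∈ Set.Ioo (-1 : ℝ) 1 → fm b m τ h u = φ u := by
    have h3 : ∀ᵐ t : ℝ, t ≠ 0 := by
      rw [ae_iff]
      simp
    filter_upwards [ae_aff (ae_notMem hb) τ hh, ae_aff h3 τ hh] with u k3 k4 k5
    set t : ℝ := τ + h * u with ht
    have het : (1 + (t : ℂ) * Complex.I : ℂ) = 1 + (τ + h * (u : ℂ)) * Complex.I := by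
      rw [ht]
      push_cast
      ring
    have hmem : (1 + t * Complex.I : ℂ) ∈ Es τ h ρ := by
      rw [ht]
      exact line_mem_Es τ hh hρ1 ⟨k5.1.le, k5.2.le⟩
    have h1 := radial_x hb k3
    have h2 := edge_tendsto t
    have h4 : ContinuousAt L₁ (1 + t * Complex.I) :=
      hL₁d.continuousOn.continuousAt (hEo.mem_nhds hmem)
    have hsl : Complex.I * t ∈ Complex.slitPlane := by
      refine Or.inr ?_
      simp
      exact k4
    have h5 : Tendsto (fun x : ℝ => Complex.log (1 + t * Complex.I + x - 1 : ℂ)) (𝓝[>] 0)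
        (𝓝 (Complex.log (Complex.I * t))) := by
      have h6 : Tendsto (fun x : ℝ => (1 + t * Complex.I + x - 1 : ℂ)) (𝓝[>] 0)
          (𝓝 (Complex.I * t)) := by
        have := h2.sub_const 1
        have e : (1 + t * Complex.I - 1 : ℂ) = Complex.I * t := by ring
        rwa [e] at this
      exact (continuousAt_clog hsl).tendsto.comp h6
    have h6 : Tendsto (fun x : ℝ => L₁ (1 + t * Complex.I + x) + c₁ -
        m * Complex.log (1 + t * Complex.I + x - 1 : ℂ)) (𝓝[>] 0)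
        (𝓝 (L₁ (1 + t * Complex.I) + c₁ - m * Complex.log (Complex.I * t))) :=
      ((h4.tendsto.comp h2).add_const c₁).sub (h5.const_mul (m : ℂ))
    have h7 : (fun x : ℝ => FF b (1 + t * Complex.I + x)) =ᶠ[𝓝[>] 0]
        fun x : ℝ => L₁ (1 + t * Complex.I + x) + c₁ -
        m * Complex.log (1 + t * Complex.I + x - 1 : ℂ) := by
      have h8 := h2.eventually (hEo.mem_nhds hmem)
      filter_upwards [h8, self_mem_nhdsWithin] with x hx hx0
      have hx0' : (0 : ℝ) < x := hx0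
      have h9 := hc₁ (1 + t * Complex.I + x) ⟨hx, by
        simp only [Set.mem_ofPred_eq, Complex.add_re, Complex.one_re, Complex.mul_re,
          Complex.ofReal_re, Complex.I_re, mul_zero, Complex.ofReal_im, Complex.I_im, mul_one,
          sub_self, add_zero]
        linarith⟩
      rw [hD] at h9
      simp only at h9
      rw [← h9]
      ring
    have h8 := tendsto_nhds_unique h1 (h6.congr' h7.symm)
    unfold fm
    rw [← ht, h8, hφ]
    simp only
    rw [← het]
    ring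
  obtain ⟨C, hC⟩ := chc_bound hr hrρ hφd
  refine ⟨C, fun n => ?_⟩
  have h1 : chc (fm b m τ h) n = chc (fun u => φ u) n := by
    unfold chc
    congr 1
    refine intervalIntegral.integral_congr_ae ?_
    have h2 : ∀ᵐ u : ℝ, u ≠ 1 := by
      rw [ae_iff]
      simp
    filter_upwards [hae, h2] with u k1 k2 k3
    rw [Set.uIoc_of_le (by norm_num)] at k3
    rw [k1 ⟨k3.1, lt_of_le_of_ne k3.2 k2⟩]
  rw [h1]
  exact hC n

lemma ell_mono {r R : ℝ} (hr : 1 < r) (hrR : r ≤ R) : ell r ⊆ ell R := by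
  intro z hz
  have h1 : ‖z - 1‖ + ‖z + 1‖ < r + 1 / r := hz
  have h2 : r + 1 / r ≤ R + 1 / R := by
    have hR : 0 < R := by linarith
    have hr0 : 0 < r := by linarith
    rw [← sub_nonneg]
    have e : R + 1 / R - (r + 1 / r) = (R - r) * (R * r - 1) / (R * r) := by
      field_simp
      ring
    rw [e]
    have : 0 ≤ R * r - 1 := by nlinarith
    have h3 : 0 ≤ R - r := by linarith
    positivity
  exact h1.trans_le h2

lemma Es_mono (τ h : ℝ) {r R : ℝ} (hr : 1 < r) (hrR : r ≤ R) : Es τ h r ⊆ Es τ h R :=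
  Set.preimage_mono (ell_mono hr hrR)

/-- the ellipse is the union of the smaller ones -/
lemma Es_exists {τ h R : ℝ} (hR : 1 < R) {s : ℂ} (hs : s ∈ Es τ h R) :
    ∃ r, 1 < r ∧ r < R ∧ s ∈ Es τ h r := by
  have h1 : ‖psi τ h s - 1‖ + ‖psi τ h s + 1‖ < R + 1 / R := hs
  have hR0 : R ≠ 0 := by linarith
  have hc : ContinuousAt (fun x : ℝ => x + 1 / x) R :=
    continuousAt_id.add (continuousAt_const.div continuousAt_id hR0)
  have h2 : ∀ᶠ x in 𝓝[<] R, ‖psi τ h s - 1‖ + ‖psi τ h s + 1‖ < x + 1 / x :=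
    nhdsWithin_le_nhds (hc.eventually (lt_mem_nhds h1))
  have h3 : ∀ᶠ x in 𝓝[<] R, 1 < x := nhdsWithin_le_nhds (lt_mem_nhds hR)
  obtain ⟨x, hx1, hx2, hx3⟩ := (h2.and (h3.and self_mem_nhdsWithin)).exists
  exact ⟨x, hx2, hx3, hx1⟩

/-- **The exact local criterion**: an entire function which is given by the Euler product to the
right of the line `Re s = 1` has no zero in the ellipse if and only if the coefficients decay. -/
theorem zero_free_iff (hb : ∀ x, ‖b x‖ ≤ M / (x.2 + 1 : ℕ)) (τ : ℝ) {h R : ℝ} (hh : 0 < h)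
    (hR : 1 < R) {G : ℂ → ℂ} (hG : Differentiable ℂ G)
    (hGF : ∀ s : ℂ, 1 < s.re → G s = Complex.exp (FF b s)) :
    (∀ s ∈ Es τ h R, G s ≠ 0) ↔
    ∀ r : ℝ, 1 < r → r < R → ∃ C : ℝ, ∀ n, ‖chc (fm b 0 τ h) n‖ ≤ C * (1 / r) ^ n := by
  constructor
  · intro H r hr hrR
    exact coef_loc hb 0 τ hh hr hrR hG.differentiableOn H fun s _ hs => by
      rw [zpow_zero, one_mul, hGF s hs]
  · intro H s hs
    obtain ⟨r, hr, hrR, hsr⟩ := Es_exists hR hs
    obtain ⟨C, hC⟩ := H r hr hrR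
    obtain ⟨g, hg, hg0, hgF⟩ := cont_ell hb 0 τ hh hr hC
    have hEo := isOpen_Es τ h r
    -- a point to the right
    obtain ⟨z₀, hz₀, hz₀e⟩ : ∃ z ∈ Es τ h r, 1 < z.re := by
      have h1 := line_mem_Es τ hh hr (u := 0) (by norm_num)
      obtain ⟨ε, hε, hεO⟩ := Metric.isOpen_iff.1 hEo _ h1
      refine ⟨(1 + ((τ + h * (0 : ℝ) : ℝ) : ℂ) * Complex.I : ℂ) + ((ε / 2 : ℝ) : ℂ), hεO ?_, ?_⟩
      · rw [Metric.mem_ball, dist_eq_norm, add_sub_cancel_left, Complex.norm_real,
          Real.norm_of_nonneg (by positivity)]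
        linarith
      · rw [Complex.add_re, Complex.ofReal_re, Complex.add_re, Complex.one_re,
          Complex.re_ofReal_mul, Complex.I_re, mul_zero]
        linarith
    have ha1 := (hG.differentiableOn (s := Es τ h r)).analyticOnNhd hEo
    have ha2 := hg.analyticOnNhd hEo
    have hV : IsOpen {s : ℂ | 1 < s.re} := isOpen_lt continuous_const Complex.continuous_re
    have h2 : G s = g s := by
      refine ha1.eqOn_of_preconnected_of_eventuallyEq ha2 (convex_Es τ h r).isPreconnected hz₀ ?_ hsr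
      filter_upwards [hEo.mem_nhds hz₀, hV.mem_nhds hz₀e] with z hz hze
      rw [hgF z hz hze, zpow_zero, one_mul, hGF z hze]
    rw [h2]
    exact hg0 s hsr

end Pool.Agent.Q9.BE
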