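import Pool.Agent.Q9.BE.Fin

/-!
# The local criterion for the zeta function
-/

set_option autoImplicit false

open Complex

namespace Pool.Agent.Q9.BE

open MeasureTheory Filter Topology
open Pool.Agent.TH339.MP (PP FF tm differentiableOn_FF)
open Pool.Agent.Q9.EL (Es psi ell bt chc fm ck chc_fm isOpen_Es convex_Es ell_im ell_norm cont_ell)

section
variable {b : PP → ℂ} {M : ℝ}

/-- **The exact local criterion** for a function which is analytic in the ellipse. -/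
theorem zero_free_iff' (hb : ∀ x, ‖b x‖ ≤ M / (x.2 + 1 : ℕ)) (τ : ℝ) {h R : ℝ} (hh : 0 < h)
    (hR : 1 < R) {G : ℂ → ℂ} (hG : DifferentiableOn ℂ G (Es τ h R))
    (hGF : ∀ s ∈ Es τ h R, 1 < s.re → G s = Complex.exp (FF b s)) :
    (∀ s ∈ Es τ h R, G s ≠ 0) ↔
    ∀ r : ℝ, 1 < r → r < R → ∃ C : ℝ, ∀ n, ‖chc (fm b 0 τ h) n‖ ≤ C * (1 / r) ^ n := by
  constructor
  · intro H r hr hrR
    exact coef_loc hb 0 τ hh hr hrR hG H fun s hs hs1 => by
      rw [zpow_zero, one_mul, hGF s hs hs1]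
  · intro H s hs
    obtain ⟨r, hr, hrR, hsr⟩ := Es_exists hR hs
    obtain ⟨C, hC⟩ := H r hr hrR
    obtain ⟨g, hg, hg0, hgF⟩ := cont_ell hb 0 τ hh hr hC
    have hEo := isOpen_Es τ h r
    have hsub := Es_mono τ h hr hrR.le
    -- a point to the right
    obtain ⟨z₀, hz₀, hz₀e⟩ : ∃ z ∈ Es τ h r, 1 < z.re := by
      have h1 := line_mem_Es τ hh hr (u := 0) (by norm_num)
      obtain ⟨ε, hε, hεO⟩ := Metric.isOpen_iff.1 hEo _ h1
      refine ⟨(1 + ((τ + h * (0 : ℝ) : ℝ) : ℂ) * Complex.I : ℂ) + ((ε / 2 : ℝ) : ℂ), hεO ?_, ?_⟩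
      · rw [Metric.mem_ball, dist_eq_norm, add_sub_cancel_left, Complex.norm_real,
          Real.norm_of_nonneg (by positivity)]
        linarith
      · rw [Complex.add_re, Complex.ofReal_re, Complex.add_re, Complex.one_re,
          Complex.re_ofReal_mul, Complex.I_re, mul_zero]
        linarith
    have ha1 := (hG.mono hsub).analyticOnNhd hEo
    have ha2 := hg.analyticOnNhd hEo
    have hV : IsOpen {s : ℂ | 1 < s.re} := isOpen_lt continuous_const Complex.continuous_re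
    have h2 : G s = g s := by
      refine ha1.eqOn_of_preconnected_of_eventuallyEq ha2 (convex_Es τ h r).isPreconnected hz₀ ?_ hsr
      filter_upwards [hEo.mem_nhds hz₀, hV.mem_nhds hz₀e] with z hz hze
      rw [hgF z hz hze, zpow_zero, one_mul, hGF z (hsub hz) hze]
    rw [h2]
    exact hg0 s hsr

end

/-! ### geometry of the ellipses -/

lemma Es_add (τ h R : ℝ) (hh : 0 < h) (s : ℂ) : s ∈ Es τ h R ↔ s + 1 / 2 ∈ Ell τ h R := by
  rw [mem_Ell hh, add_sub_cancel_right]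

lemma Es_re {τ h R : ℝ} (hh : 0 < h) (hR : 1 < R) {s : ℂ} (hs : s ∈ Es τ h R) :
    1 - h * (R - 1 / R) / 2 < s.re := by
  have h1 := Ell_re hh hR ((Es_add τ h R hh s).1 hs)
  have e : (s + 1 / 2).re = s.re + 1 / 2 := by simp
  rw [e] at h1
  linarith

lemma Es_im {τ h R : ℝ} (hh : 0 < h) {s : ℂ} (hs : s ∈ Es τ h R) :
    |s.im - τ| ≤ h * (R + 1 / R) / 2 := by
  have h1 := Ell_im hh ((Es_add τ h R hh s).1 hs)
  have e : (s + 1 / 2).im = s.im := by simp
  rwa [e] at h1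

/-- the height of the ellipse -/
lemma half_height {h R : ℝ} (hh : 0 < h) (hh1 : h ≤ 1) (hR : 1 < R) (hhR : h * (R - 1 / R) ≤ 1) :
    h * (R + 1 / R) / 2 ≤ 9 / 8 := by
  have hR0 : R ≠ 0 := by linarith
  have e : (h * (R + 1 / R) / 2) ^ 2 = (h * (R - 1 / R) / 2) ^ 2 + h ^ 2 := by
    field_simp
    ring
  have hR1 : 0 < h * (R - 1 / R) := by
    have : 1 / R < 1 := by
      rw [div_lt_one (by linarith)]
      exact hR
    have : 0 < R - 1 / R := by linarith
    positivity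
  have h3 : (h * (R + 1 / R) / 2) ^ 2 ≤ (9 / 8) ^ 2 := by
    rw [e]
    nlinarith
  exact le_of_sq_le_sq h3 (by norm_num)

/-- the points near the height `τ` -/
lemma Es_near {τ h R η : ℝ} (hh : 0 < h) (hh1 : h ≤ 1) (hR : 1 < R) (hhR : h * (R - 1 / R) ≤ 1)
    (hη : 0 < η) {s : ℂ} (hs1 : s.re ≤ 1) (hs : 1 - h * (R - 1 / R) / 2 + η ≤ s.re)
    (hτ : |s.im - τ| ≤ η ^ 2 / 8) : s ∈ Es τ h R := by
  have hR0 : R ≠ 0 := by linarith
  have hh' : (h : ℂ) ≠ 0 := by exact_mod_cast hh.ne'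
  set x : ℝ := s.re - 1 with hx
  set a : ℝ := h * (R - 1 / R) / 2 with ha
  set B : ℝ := h * (R + 1 / R) / 2 with hB
  have hBB : B ^ 2 = a ^ 2 + h ^ 2 := by
    rw [hB, ha]
    field_simp
    ring
  have hB98 : B ≤ 9 / 8 := half_height hh hh1 hR hhR
  have hB0 : 0 < B := by positivity
  have haη : η ≤ a := by linarith
  have ha2 : a ≤ 1 / 2 := by
    rw [ha]
    linarith
  have hη1 : η ≤ 1 / 2 := by linarith
  have haB : a ≤ B := by
    nlinarith [sq_nonneg h]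
  have hBη : 0 < B - η ^ 2 / 8 := by nlinarith
  have hx0 : x ≤ 0 := by
    rw [hx]
    linarith
  have hxa : -x ≤ a - η := by
    rw [hx]
    linarith
  have key : ∀ y : ℝ, y ^ 2 = h ^ 2 → ‖(x : ℂ) + y * Complex.I‖ < B - η ^ 2 / 8 := by
    intro y hy
    rw [Complex.norm_def, Complex.normSq_add_mul_I, hy, Real.sqrt_lt' hBη]
    have h1 : x ^ 2 ≤ (a - η) ^ 2 := by
      nlinarith
    have h2 : B * η ^ 2 / 4 < η ^ 2 := by nlinarith [sq_nonneg η, pow_pos hη 2]
    nlinarith [sq_nonneg (η ^ 2)]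
  have hfar : ∀ y : ℝ, y ^ 2 = h ^ 2 → ‖(x : ℂ) + ((s.im - τ + y : ℝ) : ℂ) * Complex.I‖ < B := by
    intro y hy
    have e : (x : ℂ) + ((s.im - τ + y : ℝ) : ℂ) * Complex.I =
        ((x : ℂ) + y * Complex.I) + ((s.im - τ : ℝ) : ℂ) * Complex.I := by
      push_cast
      ring
    rw [e]
    refine (norm_add_le _ _).trans_lt ?_
    rw [norm_mul, Complex.norm_I, mul_one, Complex.norm_real, Real.norm_eq_abs]
    have := key y hy
    linarith
  have h1 := hfar (-h) (by ring)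
  have h2 := hfar h rfl
  have hs3 := Complex.re_add_im s
  have e1 : psi τ h s - 1 = -Complex.I * ((x : ℂ) + ((s.im - τ + -h : ℝ) : ℂ) * Complex.I) / h := by
    unfold Pool.Agent.Q9.EL.psi
    rw [eq_div_iff hh', sub_mul, div_mul_cancel₀ _ hh', hx]
    push_cast
    linear_combination Complex.I * hs3 + ((s.im : ℂ) - τ - h - s.im) * Complex.I_mul_I
  have e2 : psi τ h s + 1 = -Complex.I * ((x : ℂ) + ((s.im - τ + h : ℝ) : ℂ) * Complex.I) / h := by
    unfold Pool.Agent.Q9.EL.psi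
    rw [eq_div_iff hh', add_mul, div_mul_cancel₀ _ hh', hx]
    push_cast
    linear_combination Complex.I * hs3 + ((s.im : ℂ) - τ + h - s.im) * Complex.I_mul_I
  change ‖psi τ h s - 1‖ + ‖psi τ h s + 1‖ < R + 1 / R
  rw [e1, e2, norm_div, norm_div, norm_mul, norm_mul, norm_neg, Complex.norm_I, one_mul, one_mul,
    Complex.norm_real, Real.norm_of_nonneg hh.le, ← add_div, div_lt_iff₀ hh]
  have h3 : (R + 1 / R) * h = 2 * B := by
    rw [hB]
    ring
  rw [h3]
  linarith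

/-! ### the zeta function -/

/-- the coefficients of `log ζ` -/
noncomputable def bz : PP → ℂ := fun x => 1 / ((x.2 + 1 : ℕ) : ℂ)

lemma norm_bz (x : PP) : ‖bz x‖ ≤ (1 : ℝ) / (x.2 + 1 : ℕ) := by
  unfold bz
  rw [norm_div, norm_one, Complex.norm_natCast]

lemma zeta_exp {s : ℂ} (hs : 1 < s.re) : riemannZeta s = Complex.exp (FF bz s) := by
  have h1 := euler_exp (u := fun _ => 1) (v := fun _ => 0) (fun _ _ => by simp) (fun _ _ => by simp) hs
  have e : bb (fun _ => 1) (fun _ => 0) = bz := by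
    funext x
    unfold bb bz
    rw [one_pow, zero_pow (Nat.succ_ne_zero _), add_zero]
  rw [e] at h1
  rw [← h1, ← riemannZeta_eulerProduct_tprod hs]
  refine tprod_congr fun p => ?_
  rw [zero_mul, sub_zero, inv_one, mul_one, one_mul]

/-- the decay of the Bessel series over the prime powers -/
def DecZ (τ h R : ℝ) : Prop :=
  ∀ r : ℝ, 1 < r → r < R → ∃ C : ℝ, ∀ k : ℕ, 1 ≤ k → ‖∑' x, bt bz τ h k x‖ ≤ C / r ^ k

/-- **the local criterion for `ζ`** -/
theorem zeta_iff {τ h R : ℝ} (hh : 0 < h) (hR : 1 < R) (h1 : (1 : ℂ) ∉ Es τ h R) :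
    (∀ s ∈ Es τ h R, riemannZeta s ≠ 0) ↔ DecZ τ h R := by
  unfold DecZ
  rw [← decay_iff norm_bz τ hh, ← zero_free_iff' norm_bz τ hh hR (G := riemannZeta)
    (fun s hs => (differentiableAt_riemannZeta (fun h0 => h1 (h0 ▸ hs))).differentiableWithinAt)
    fun s _ hs => zeta_exp hs]

lemma one_notMem {τ h R : ℝ} (hh : 0 < h) (hh1 : h ≤ 1) (hR : 1 < R) (hhR : h * (R - 1 / R) ≤ 1)
    (hτ : 2 ≤ τ) : (1 : ℂ) ∉ Es τ h R := by
  intro h1
  have h2 := (Es_im hh h1).trans (half_height hh hh1 hR hhR)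
  rw [Complex.one_im, zero_sub, abs_neg, abs_of_nonneg (by linarith)] at h2
  linarith

end Pool.Agent.Q9.BE
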